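import Pool.Agent.Helper62.BM.Stm4

/-!
# Two lemmas for `S_FewK`
-/

set_option autoImplicit false

open Polynomial Matrix Finset

namespace Pool.Agent.Helper4.BM

open Pool.Agent.Helper62.BM

theorem hasseWitt_eq {k : Type} [Field k] (p : ℕ) (hp : 0 < p) (g : ℕ) (F : k[X]) (i j : Fin g) :
    hasseWitt p g F i j = (X ^ (j : ℕ) * F ^ ((p - 1) / 2)).coeff (p * ((i : ℕ) + 1) - 1) := by
  have h1 : 1 ≤ p * ((i : ℕ) + 1) := Nat.one_le_iff_ne_zero.2 (by positivity)
  have h2 : p * ((i : ℕ) + 1) = (p * ((i : ℕ) + 1) - 1) + 1 := by omega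
  unfold hasseWitt
  rw [Matrix.of_apply]
  conv_lhs => rw [h2]
  rw [pow_succ', mul_assoc, coeff_X_mul]

theorem YX_eval {k : Type} [Field k] (p g : ℕ) (a : Fin (2 * g) → k) (s : k) (i j : Fin g) :
    (YX p g a i (lo j)).eval s =
      (X ^ (j : ℕ) * ((X - C s) * ∏ l, (X - C (a l))) ^ ((p - 1) / 2)).coeff
        (p * ((i : ℕ) + 1) - 1) := by
  unfold YX fmx
  rw [Matrix.of_apply]
  have h : ∀ (q : k[X][X]) (n : ℕ), (q.coeff n).eval s = (q.map (evalRingHom s)).coeff n := by
    intro q n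
    rw [coeff_map]; rfl
  rw [h]
  simp only [Polynomial.map_mul, Polynomial.map_pow, Polynomial.map_sub, Polynomial.map_X,
    Polynomial.map_C, Polynomial.map_prod, coe_evalRingHom, eval_X, eval_C, lo]

theorem A1 : ∀ (k : Type) [Field k] (p : ℕ) [Fact p.Prime] [CharP k p], p ≠ 2 → ∀ (g : ℕ)
    (a : Fin (2 * g) → k) (c s : k), c ^ p = c → c ≠ 0 →
    (∀ i j : Fin g, hasseWitt p g ((X - C s) * (C c * ∏ j, (X - C (a j)))) i j =
      (YX p g a i (lo j)).eval s) ∨
    (∀ i j : Fin g, hasseWitt p g ((X - C s) * (C c * ∏ j, (X - C (a j)))) i j =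
      -(YX p g a i (lo j)).eval s) := by
  intro k _ p _ _ hp2 g a c s hc hc0
  have hp : p.Prime := Fact.out
  have hodd : p % 2 = 1 := by
    rcases hp.eq_two_or_odd with h | h
    · exact absurd h hp2
    · exact h
  have h1 : c ^ (p - 1) = 1 := by
    have : c * c ^ (p - 1) = c * 1 := by
      rw [← pow_succ', Nat.sub_add_cancel hp.one_le, hc, mul_one]
    exact mul_left_cancel₀ hc0 this
  have h2 : (c ^ ((p - 1) / 2)) ^ 2 = 1 := by
    rw [← pow_mul]
    have : (p - 1) / 2 * 2 = p - 1 := by omega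
    rw [this, h1]
  have h3 : ∀ i j : Fin g, hasseWitt p g ((X - C s) * (C c * ∏ j, (X - C (a j)))) i j =
      c ^ ((p - 1) / 2) * (YX p g a i (lo j)).eval s := by
    intro i j
    rw [hasseWitt_eq p hp.pos, YX_eval]
    have : (X ^ (j : ℕ) * ((X - C s) * (C c * ∏ j, (X - C (a j)))) ^ ((p - 1) / 2) : k[X]) =
        C (c ^ ((p - 1) / 2)) *
          (X ^ (j : ℕ) * ((X - C s) * ∏ l, (X - C (a l))) ^ ((p - 1) / 2)) := by
      rw [C_pow]
      have h4 : (X - C s) * (C c * ∏ j, (X - C (a j))) =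
        C c * ((X - C s) * ∏ j, (X - C (a j))) := by ring
      rw [h4, mul_pow]
      ring
    rw [this, coeff_C_mul]
  rw [sq] at h2
  rcases mul_self_eq_one_iff.1 h2 with h | h
  · left; intro i j; rw [h3, h, one_mul]
  · right; intro i j; rw [h3, h]; ring

theorem A2 : ∀ (A : Type) [CommRing A] [IsDomain A] (g : ℕ)
    (G : MvPolynomial (Fin g × Fin g) A[X]), G ≠ 0 →
    ∃ H : MvPolynomial (Fin g × Fin g) A[X], H ≠ 0 ∧ ∀ (k : Type) [Field k] (ψ : A[X] →+* k)
      (W : Fin g × Fin g → k), ((Matrix.of fun i j => W (i, j)).det = 0 ∨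
        MvPolynomial.eval₂ ψ W G = 0 ∨ MvPolynomial.eval₂ ψ (fun u => -W u) G = 0) →
      MvPolynomial.eval₂ ψ W H = 0 := by
  intro A _ _ g G hG
  let N : MvPolynomial (Fin g × Fin g) A[X] →ₐ[A[X]] MvPolynomial (Fin g × Fin g) A[X] :=
    MvPolynomial.aeval fun u => -MvPolynomial.X u
  have hNN : ∀ q, N (N q) = q := by
    intro q
    have : (N.comp N) = AlgHom.id _ _ := by
      apply MvPolynomial.algHom_ext
      intro u
      simp [N]
    exact congrArg (fun φ : MvPolynomial (Fin g × Fin g) A[X] →ₐ[A[X]]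
      MvPolynomial (Fin g × Fin g) A[X] => φ q) this
  have hN0 : N G ≠ 0 := by
    intro h
    apply hG
    rw [← hNN G, h, map_zero]
  refine ⟨(Matrix.mvPolynomialX (Fin g) (Fin g) A[X]).det * (G * N G),
    mul_ne_zero (Matrix.det_mvPolynomialX_ne_zero _ _) (mul_ne_zero hG hN0), ?_⟩
  intro k _ ψ W h
  rw [MvPolynomial.eval₂_mul, MvPolynomial.eval₂_mul]
  rcases h with h | h | h
  · have h1 : MvPolynomial.eval₂ ψ W (Matrix.mvPolynomialX (Fin g) (Fin g) A[X]).det =
        (Matrix.of fun i j => W (i, j)).det := by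
      have h2 : MvPolynomial.eval₂ ψ W (Matrix.mvPolynomialX (Fin g) (Fin g) A[X]).det =
        (MvPolynomial.eval₂Hom ψ W) (Matrix.mvPolynomialX (Fin g) (Fin g) A[X]).det := rfl
      rw [h2, RingHom.map_det]
      congr 1
      ext i j
      simp
    rw [h1, h, zero_mul]
  · rw [h, zero_mul, mul_zero]
  · have h1 : MvPolynomial.eval₂ ψ W (N G) = MvPolynomial.eval₂ ψ (fun u => -W u) G := by
      have h2 : (MvPolynomial.eval₂Hom ψ W).comp (N : MvPolynomial (Fin g × Fin g) A[X] →+*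
          MvPolynomial (Fin g × Fin g) A[X]) = MvPolynomial.eval₂Hom ψ (fun u => -W u) := by
        apply MvPolynomial.ringHom_ext
        · intro r
          simp [N]
        · intro u
          simp [N]
      exact congrArg (fun φ : MvPolynomial (Fin g × Fin g) A[X] →+* k => φ G) h2
    rw [h1, h, mul_zero, mul_zero]

end Pool.Agent.Helper4.BM

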