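import Pool.Agent.Helper62.BM.KStm

/-!
# Lemmas for `K_FewK`
-/

set_option autoImplicit false

open Polynomial Matrix Finset NumberField

namespace Pool.Agent.Helper4.BM

open Pool.Agent.Helper62.BM

theorem hwK_map {R S : Type} [CommRing R] [CommRing S] (φ : R →+* S) (q n m r : ℕ)
    (F : R[X]) (s : R) (i j : Fin (dK n m r)) :
    φ (hwK q n m r F s i j) = hwK q n m r (F.map φ) (φ s) i j := by
  simp only [hwK, Matrix.of_apply]
  rw [← Polynomial.coeff_map, Polynomial.map_mul, Polynomial.map_mul, Polynomial.map_pow,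
    Polynomial.map_pow, Polynomial.map_pow, Polynomial.map_sub, Polynomial.map_X, Polynomial.map_C]

theorem hwK_eq {k : Type} [Field k] (p n m r : ℕ) (hp : 0 < p) (a : Fin n → k) (c s : k)
    (hm : m ∣ p - 1) (hr : r ≤ m) (i j : Fin (dK n m r)) :
    hwK p n m r (C c * ∏ j, (X - C (a j))) s i j =
      c ^ (r * ((p - 1) / m)) * (yk p (r * ((p - 1) / m)) a i j).eval s := by
  have h1 : 1 ≤ p * ((i : ℕ) + 1) := Nat.one_le_iff_ne_zero.2 (by positivity)
  have h2 : p * ((i : ℕ) + 1) = (p * ((i : ℕ) + 1) - 1) + 1 := by omega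
  have h3 : (m - r) * ((p - 1) / m) = p - 1 - r * ((p - 1) / m) := by
    rw [Nat.sub_mul, Nat.mul_div_cancel' hm]
  unfold hwK yk
  rw [Matrix.of_apply, h3]
  have h : ∀ (q : k[X][X]) (n : ℕ), (q.coeff n).eval s = (q.map (evalRingHom s)).coeff n := by
    intro q n
    rw [coeff_map]; rfl
  rw [h]
  simp only [Polynomial.map_mul, Polynomial.map_pow, Polynomial.map_sub, Polynomial.map_X,
    Polynomial.map_C, Polynomial.map_prod, coe_evalRingHom, eval_X, eval_C]
  have h4 : (X ^ ((j : ℕ) + 1) * (C c * ∏ j, (X - C (a j))) ^ (r * ((p - 1) / m)) *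
      (X - C s) ^ (p - 1 - r * ((p - 1) / m)) : k[X]) =
      C (c ^ (r * ((p - 1) / m))) * (X * (X ^ (j : ℕ) * ((∏ j, (X - C (a j))) ^ (r * ((p - 1) / m)) *
        (X - C s) ^ (p - 1 - r * ((p - 1) / m))))) := by
    rw [mul_pow, C_pow]
    ring
  rw [h4, coeff_C_mul]
  congr 1
  conv_lhs => rw [h2]
  rw [coeff_X_mul]

theorem A1k {k : Type} [Field k] (p n m r : ℕ) [Fact p.Prime] (a : Fin n → k) (c s : k)
    (hc : c ^ p = c) (hc0 : c ≠ 0) (hm : m ∣ p - 1) (hr : r ≤ m) :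
    ∃ ζ : k, ζ ^ m = 1 ∧ ∀ i j : Fin (dK n m r), hwK p n m r (C c * ∏ j, (X - C (a j))) s i j =
      ζ * (yk p (r * ((p - 1) / m)) a i j).eval s := by
  have hp : p.Prime := Fact.out
  refine ⟨c ^ (r * ((p - 1) / m)), ?_, fun i j => hwK_eq p n m r hp.pos a c s hm hr i j⟩
  have h1 : c ^ (p - 1) = 1 := by
    have : c * c ^ (p - 1) = c * 1 := by
      rw [← pow_succ', Nat.sub_add_cancel hp.one_le, hc, mul_one]
    exact mul_left_cancel₀ hc0 this
  rw [← pow_mul, mul_assoc, Nat.div_mul_cancel hm, mul_comm, pow_mul, h1, one_pow]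

theorem A2k {A : Type} [CommRing A] [IsDomain A] (d : ℕ) (Zs : Finset A)
    (hZ : ∀ z ∈ Zs, IsUnit z) (G : MvPolynomial (Fin d × Fin d) A[X]) (hG : G ≠ 0) :
    ∃ H : MvPolynomial (Fin d × Fin d) A[X], H ≠ 0 ∧ ∀ (k : Type) [Field k] (ψ : A[X] →+* k)
      (W : Fin d × Fin d → k), ((Matrix.of fun i j => W (i, j)).det = 0 ∨
        ∃ z ∈ Zs, MvPolynomial.eval₂ ψ (fun u => ψ (C z) * W u) G = 0) →
      MvPolynomial.eval₂ ψ W H = 0 := by
  classical
  let N : A → MvPolynomial (Fin d × Fin d) A[X] →ₐ[A[X]] MvPolynomial (Fin d × Fin d) A[X] :=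
    fun z => MvPolynomial.aeval fun u => MvPolynomial.C (C z) * MvPolynomial.X u
  have hN0 : ∀ z ∈ Zs, N z G ≠ 0 := by
    intro z hz h
    obtain ⟨w, hw⟩ := (hZ z hz).exists_left_inv
    apply hG
    have hNN : (N w).comp (N z) = AlgHom.id _ _ := by
      apply MvPolynomial.algHom_ext
      intro u
      simp only [N, AlgHom.comp_apply, MvPolynomial.aeval_X, map_mul, AlgHom.id_apply]
      have h1 : (MvPolynomial.aeval fun u : Fin d × Fin d =>
          (MvPolynomial.C (C w) * MvPolynomial.X u : MvPolynomial (Fin d × Fin d) A[X]))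
          (MvPolynomial.C (C z)) = (MvPolynomial.C (C z) : MvPolynomial (Fin d × Fin d) A[X]) := by
        rw [MvPolynomial.aeval_C]; rfl
      rw [h1, ← mul_assoc, ← map_mul, ← map_mul, mul_comm z w, hw, map_one, map_one, one_mul]
    have h2 := congrArg (fun φ : MvPolynomial (Fin d × Fin d) A[X] →ₐ[A[X]]
      MvPolynomial (Fin d × Fin d) A[X] => φ G) hNN
    simp only [AlgHom.comp_apply, AlgHom.id_apply] at h2
    rw [← h2, h, map_zero]
  refine ⟨(Matrix.mvPolynomialX (Fin d) (Fin d) A[X]).det * ∏ z ∈ Zs, N z G,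
    mul_ne_zero (Matrix.det_mvPolynomialX_ne_zero _ _) (Finset.prod_ne_zero_iff.2 hN0), ?_⟩
  intro k _ ψ W h
  rw [MvPolynomial.eval₂_mul]
  rcases h with h | ⟨z, hz, h⟩
  · have h1 : MvPolynomial.eval₂ ψ W (Matrix.mvPolynomialX (Fin d) (Fin d) A[X]).det =
        (Matrix.of fun i j => W (i, j)).det := by
      have h2 : MvPolynomial.eval₂ ψ W (Matrix.mvPolynomialX (Fin d) (Fin d) A[X]).det =
        (MvPolynomial.eval₂Hom ψ W) (Matrix.mvPolynomialX (Fin d) (Fin d) A[X]).det := rfl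
      rw [h2, RingHom.map_det]
      congr 1
      ext i j
      simp
    rw [h1, h, zero_mul]
  · have h1 : MvPolynomial.eval₂ ψ W (N z G) =
        MvPolynomial.eval₂ ψ (fun u => ψ (C z) * W u) G := by
      have h2 : (MvPolynomial.eval₂Hom ψ W).comp (N z : MvPolynomial (Fin d × Fin d) A[X] →+*
          MvPolynomial (Fin d × Fin d) A[X]) =
          MvPolynomial.eval₂Hom ψ (fun u => ψ (C z) * W u) := by
        apply MvPolynomial.ringHom_ext
        · intro r
          simp [N]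
        · intro u
          simp [N]
      exact congrArg (fun φ : MvPolynomial (Fin d × Fin d) A[X] →+* k => φ G) h2
    have h3 : MvPolynomial.eval₂ ψ W (∏ z ∈ Zs, N z G) = 0 := by
      have h4 : MvPolynomial.eval₂ ψ W (∏ z ∈ Zs, N z G) =
        (MvPolynomial.eval₂Hom ψ W) (∏ z ∈ Zs, N z G) := rfl
      rw [h4, map_prod]
      exact Finset.prod_eq_zero hz (h1.trans h)
    rw [h3, mul_zero]

/-- the statement of `K_FewG` with the size `d` -/
def FewGd (n m r d : ℕ) : Prop :=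
    ∀ (A : Type) [CommRing A] [IsDomain A] [CharZero A] (a : Fin n → A),
    Function.Injective a → ∀ G : MvPolynomial (Fin d × Fin d) A[X], G ≠ 0 →
    ∀ ε : ℝ, 0 < ε → ∃ (p₀ : ℕ) (a₀ : A), a₀ ≠ 0 ∧
      ∀ (p : ℕ) [Fact p.Prime] (k : Type) [Field k] [CharP k p] (φ : A →+* k), p₀ ≤ p →
      m ∣ p - 1 → φ a₀ ≠ 0 → ∀ T : Finset k, (∀ t ∈ T, t ^ p = t ∧
        MvPolynomial.eval₂ ((evalRingHom t).comp (mapRingHom φ))
          (fun u : Fin d × Fin d =>
          (yk p (r * ((p - 1) / m)) (fun j => φ (a j)) u.1 u.2).eval t) G = 0) →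
        (T.card : ℝ) ≤ ε * p

theorem fewGd_half (hG : S_FewG) (g r : ℕ) (hg : 1 ≤ g) (hr : 0 < r) : FewGd (2 * g) (2 * r) r g := by
  intro A _ _ _ a ha G hG0 ε hε
  obtain ⟨p₀, a₀, ha₀, h⟩ := hG g hg A a ha G hG0 ε hε
  refine ⟨p₀, a₀, ha₀, ?_⟩
  intro p _ k _ _ φ hp hm hφ T hT
  refine h p k φ hp hφ T ?_
  intro t ht
  obtain ⟨h1, h2⟩ := hT t ht
  refine ⟨h1, ?_⟩
  rw [← h2]
  congr 1
  funext u
  have e0 : r * ((p - 1) / (2 * r)) = (p - 1) / 2 := by
    obtain ⟨x, hx⟩ := hm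
    rw [hx, Nat.mul_div_cancel_left _ (by omega), mul_assoc, Nat.mul_div_cancel_left _ (by omega)]
  have e1 : p - 1 - (p - 1) / 2 = (p - 1) / 2 := by
    obtain ⟨x, hx⟩ := hm
    rw [mul_assoc] at hx
    omega
  congr 1
  rw [e0]
  unfold YX yk fmx
  rw [Matrix.of_apply, e1]
  congr 2
  rw [mul_pow, mul_comm ((X - Polynomial.C X) ^ _)]

theorem fewGd (hK : K_FewG) (hG : S_FewG) (n m r : ℕ) (hn : 2 ≤ n) (hm : Nat.Coprime m (n - 1))
    (hr : 0 < r) (hrm : r < m) : FewGd n m r (dK n m r) := by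
  by_cases h2 : 2 * r = m
  · subst h2
    have hodd : n % 2 = 0 := by
      have h3 : Nat.Coprime 2 (n - 1) := Nat.Coprime.coprime_dvd_left (Dvd.intro r rfl) hm
      have h4 := (Nat.coprime_two_left).1 h3
      rw [Nat.odd_iff] at h4
      omega
    obtain ⟨g, hg⟩ : ∃ g, n = 2 * g := ⟨n / 2, by omega⟩
    subst hg
    have hd : dK (2 * g) (2 * r) r = g := by
      unfold dK
      have h5 : (2 * g - 1) * r / (2 * r) = (2 * g - 1) / 2 := by
        rw [mul_comm 2 r, mul_comm (2 * g - 1) r, Nat.mul_div_mul_left _ _ hr]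
      rw [h5]
      omega
    rw [hd]
    exact fewGd_half hG g r (by omega) hr
  · intro A _ _ _ a ha G hG0 ε hε
    have hnd : ¬ m ∣ (n - 1) * r := by
      intro h
      have h3 := hm.dvd_of_dvd_mul_left h
      exact absurd (Nat.le_of_dvd hr h3) (by omega)
    exact hK n m r hn hr hrm hnd h2 A a ha G hG0 ε hε

end Pool.Agent.Helper4.BM
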