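import Pool.Agent.Helper62.BM.Stm
import Pool.Graph.R_pool_sql_team_seeded_3997aac3.Q121.ST.AuxVec
import Pool.Graph.R_pool_sql_team_seeded_3997aac3.Q225.ST.Van
import Pool.Graph.R_pool_sql_team_seeded_3997aac3.Q95.ST.Abs
import Pool.Graph.R_pool_sql_team_seeded_3997aac3.Q299.ST.Soft

/-!
# The soft Stepanov theorem with the nonvanishing as a hypothesis (package P9)
-/

set_option autoImplicit false

open Finset

namespace Pool.Agent.Helper4.BM

open Pool.Agent.Q267.ST Pool.Agent.Helper62.BM
open Pool.Agent.Q299.ST (mono Ex mem_Ex der_mem V mono_mem)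

/-- Dual functionals of a linearly independent finite family of vectors. -/
theorem dual {R : Type} [CommRing R] [IsDomain R] {J Ms : Type} [Fintype J] [DecidableEq J]
    [Fintype Ms] [DecidableEq Ms] (W : Ms → J → R)
    (hW : ∀ c : J → R, (∀ m, ∑ j, c j * W m j = 0) → c = 0) :
    ∃ (Δ : R) (L : J → Ms → R), Δ ≠ 0 ∧
      ∀ j j', ∑ m, L j m * W m j' = if j = j' then Δ else 0 := by
  classical
  let K := FractionRing R
  let Wm : Matrix Ms J K := Matrix.of fun m j => algebraMap R K (W m j)
  have hker : LinearMap.ker (Matrix.mulVecLin Wm) = ⊥ := by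
    rw [LinearMap.ker_eq_bot']
    intro x hx
    obtain ⟨d, hd⟩ := IsLocalization.exist_integer_multiples (nonZeroDivisors R) Finset.univ x
    choose! c hc using hd
    have hc' : ∀ j, algebraMap R K (c j) = algebraMap R K d * x j := fun j => by
      rw [hc j (Finset.mem_univ j), Algebra.smul_def]
    have h0 : c = 0 := by
      apply hW
      intro m
      apply IsFractionRing.injective R K
      have h1 := congrFun hx m
      simp only [Matrix.mulVecLin_apply, Matrix.mulVec, dotProduct, Pi.zero_apply] at h1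
      rw [map_sum, map_zero]
      have h2 : ∀ j, algebraMap R K (c j * W m j) = algebraMap R K d * (Wm m j * x j) := by
        intro j
        rw [map_mul, hc' j]
        simp only [Wm, Matrix.of_apply]
        ring
      rw [Finset.sum_congr rfl fun j _ => h2 j, ← Finset.mul_sum, h1, mul_zero]
    funext j
    have h3 := hc' j
    rw [h0, Pi.zero_apply, map_zero] at h3
    have h4 : algebraMap R K (d : R) ≠ 0 :=
      IsFractionRing.to_map_ne_zero_of_mem_nonZeroDivisors d.2
    exact (mul_eq_zero.1 h3.symm).resolve_left h4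
  obtain ⟨g, hg⟩ := LinearMap.exists_leftInverse_of_injective (Matrix.mulVecLin Wm) hker
  obtain ⟨d, hd⟩ := IsLocalization.exist_integer_multiples (nonZeroDivisors R)
    (Finset.univ : Finset (J × Ms)) (fun s => g (Pi.single s.2 1) s.1)
  choose! L hL using hd
  refine ⟨d, fun j m => L (j, m), nonZeroDivisors.coe_ne_zero d, fun j j' => ?_⟩
  apply IsFractionRing.injective R K
  rw [map_sum]
  have h1 : ∀ m, algebraMap R K (L (j, m) * W m j') =
      algebraMap R K d * (g (Pi.single m (Wm m j')) j) := by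
    intro m
    rw [map_mul, hL (j, m) (Finset.mem_univ _), Algebra.smul_def, mul_assoc]
    congr 1
    have h2 : (Pi.single m (Wm m j') : Ms → K) = Wm m j' • Pi.single m 1 := by
      rw [← Pi.single_smul]; simp
    rw [h2, map_smul, Pi.smul_apply, smul_eq_mul, mul_comm]
    rfl
  rw [Finset.sum_congr rfl fun m _ => h1 m, ← Finset.mul_sum]
  have h3 : ∑ m, g (Pi.single m (Wm m j')) j = if j = j' then (1 : K) else 0 := by
    have h4 : ∑ m, g (Pi.single m (Wm m j')) = g (∑ m, Pi.single m (Wm m j')) := (map_sum g _ _).symm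
    have h5 : (∑ m, Pi.single m (Wm m j') : Ms → K) = Matrix.mulVecLin Wm (Pi.single j' 1) := by
      rw [Finset.univ_sum_single]
      funext m
      simp [Matrix.mulVec_single]
    rw [← Finset.sum_apply, h4, h5]
    have h6 := LinearMap.congr_fun hg (Pi.single j' 1)
    rw [LinearMap.comp_apply, LinearMap.id_apply] at h6
    rw [h6, Pi.single_apply]
  rw [h3]
  split_ifs <;> simp

/-- A linearly independent finite family of polynomials stays linearly independent after a
reduction which does not kill one element. -/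
theorem indep {R σ J : Type} [CommRing R] [IsDomain R] [Fintype J] (w : J → MvPolynomial σ R)
    (hw : ∀ c : J → R, ∑ j, MvPolynomial.C (c j) * w j = 0 → c = 0) :
    ∃ Δ : R, Δ ≠ 0 ∧ ∀ (R' : Type) [CommRing R'] [IsDomain R'] (ψ : R →+* R'), ψ Δ ≠ 0 →
      ∀ c : J → R', ∑ j, MvPolynomial.C (c j) * MvPolynomial.map ψ (w j) = 0 → c = 0 := by
  classical
  let E : Finset (σ →₀ ℕ) := Finset.univ.biUnion fun j => (w j).support
  obtain ⟨Δ, L, hΔ, hL⟩ := dual (Ms := {m // m ∈ E}) (fun m j => (w j).coeff m) (by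
    intro c hc
    apply hw
    ext m
    rw [MvPolynomial.coeff_sum, MvPolynomial.coeff_zero]
    simp only [MvPolynomial.coeff_C_mul]
    by_cases hm : m ∈ E
    · exact hc ⟨m, hm⟩
    · refine Finset.sum_eq_zero fun j _ => ?_
      have : (w j).coeff m = 0 := by
        by_contra h
        exact hm (Finset.mem_biUnion.2 ⟨j, Finset.mem_univ j, MvPolynomial.mem_support_iff.2 h⟩)
      rw [this, mul_zero])
  refine ⟨Δ, hΔ, fun R' _ _ ψ hψ c hc => ?_⟩
  funext j
  have h1 : ∀ m : σ →₀ ℕ, ∑ j', c j' * ψ ((w j').coeff m) = 0 := by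
    intro m
    have h2 := congrArg (MvPolynomial.coeff m) hc
    rw [MvPolynomial.coeff_sum, MvPolynomial.coeff_zero] at h2
    simpa only [MvPolynomial.coeff_C_mul, MvPolynomial.coeff_map] using h2
  have h3 : ∑ m : {m // m ∈ E}, ψ (L j m) * ∑ j', c j' * ψ ((w j').coeff m) = 0 :=
    Finset.sum_eq_zero fun m _ => by rw [h1, mul_zero]
  simp only [Finset.mul_sum] at h3
  rw [Finset.sum_comm] at h3
  have h4 : ∀ j', ∑ m : {m // m ∈ E}, ψ (L j m) * (c j' * ψ ((w j').coeff m)) =
      c j' * ψ (if j = j' then Δ else 0) := by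
    intro j'
    rw [← hL j j', map_sum, Finset.mul_sum]
    refine Finset.sum_congr rfl fun m _ => ?_
    rw [map_mul]; ring
  rw [Finset.sum_congr rfl fun j' _ => h4 j', Finset.sum_eq_single j] at h3
  · rw [if_pos rfl] at h3
    exact (mul_eq_zero.1 h3).resolve_right hψ
  · intro j' _ hne
    rw [if_neg (Ne.symm hne), map_zero, mul_zero]
  · intro h; exact absurd (Finset.mem_univ j) h

/-- The derivative of a monomial. -/
theorem der_gen {A : Type} [CommRing A] {κ : ℕ} (q : Polynomial A)
    (M : Matrix (Fin (κ + 1)) (Fin (κ + 1)) (Polynomial A)) (n : ℕ) (e : Fin (κ + 1) → ℕ)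
    (he : ∑ l, e l = n) :
    ∃ c : (Fin (κ + 1) → ℕ) → Polynomial A, ∀ (k : Type) [Field k] (φ : A →+* k)
      (Z : Fin (κ + 1) → Polynomial k),
      (∀ l, q.map φ * Polynomial.derivative (Z l) = ∑ l', (M l' l).map φ * Z l') →
      q.map φ * Polynomial.derivative (mono Z e) = ∑ e' ∈ Ex κ n, (c e').map φ * mono Z e' := by
  classical
  let T := MvPolynomial (Fin (κ + 1)) (Polynomial A)
  let y : Fin (κ + 1) → T := MvPolynomial.X
  let d : Derivation (Polynomial A) T T :=
    MvPolynomial.mkDerivation (Polynomial A) (fun l => ∑ l', M l' l • y l')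
  have hd : ∀ f g : T, d (f * g) = f * d g + g * d f := by
    intro f g
    rw [Derivation.leibniz, smul_eq_mul, smul_eq_mul]
  have h1 := der_mem y d hd (Derivation.map_one_eq_zero d) (1 : Polynomial A) (fun l => by
    have h2 : d (y l) = ∑ l', M l' l • y l' := MvPolynomial.mkDerivation_X _ _ _
    rw [one_smul, h2]
    exact Submodule.sum_mem _ fun l' _ => Submodule.smul_mem _ _
      (Pool.Agent.Q299.ST.y_mem y l')) n e he
  rw [one_smul] at h1
  unfold Pool.Agent.Q299.ST.V at h1
  rw [Submodule.mem_span_image_finset_iff_exists_fun] at h1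
  obtain ⟨a₀, ha₀⟩ := h1
  refine ⟨fun e' => if h : e' ∈ Ex κ n then a₀ ⟨e', h⟩ else 0, fun k _ φ Z hZ => ?_⟩
  let ev : T →+* Polynomial k := MvPolynomial.eval₂Hom (Polynomial.mapRingHom φ) Z
  have hevy : ∀ l, ev (y l) = Z l := fun l => MvPolynomial.eval₂Hom_X' _ _ _
  have hevC : ∀ (r : Polynomial A) (f : T), ev (r • f) = r.map φ * ev f := by
    intro r f
    rw [MvPolynomial.smul_eq_C_mul, map_mul]
    congr 1
    exact MvPolynomial.eval₂Hom_C _ _ _
  have hevm : ∀ e, ev (mono y e) = mono Z e := by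
    intro e
    unfold mono
    rw [map_prod]
    exact Finset.prod_congr rfl fun l _ => by rw [map_pow, hevy]
  have hmul : ∀ f g : T, ev (d f) = q.map φ * Polynomial.derivative (ev f) →
      ev (d g) = q.map φ * Polynomial.derivative (ev g) →
      ev (d (f * g)) = q.map φ * Polynomial.derivative (ev (f * g)) := by
    intro f g hf hg
    rw [hd, map_add, map_mul, map_mul, hf, hg, map_mul, Polynomial.derivative_mul]
    ring
  have hone : ev (d 1) = q.map φ * Polynomial.derivative (ev 1) := by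
    rw [Derivation.map_one_eq_zero, map_zero, map_one, Polynomial.derivative_one, mul_zero]
  have hX : ∀ l, ev (d (y l)) = q.map φ * Polynomial.derivative (ev (y l)) := by
    intro l
    have h2 : d (y l) = ∑ l', M l' l • y l' := MvPolynomial.mkDerivation_X _ _ _
    rw [hevy, hZ l, h2, map_sum]
    exact Finset.sum_congr rfl fun l' _ => by rw [hevC, hevy]
  have hpow : ∀ l (j : ℕ), ev (d (y l ^ j)) = q.map φ * Polynomial.derivative (ev (y l ^ j)) := by
    intro l j
    induction j with
    | zero => rw [pow_zero]; exact hone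
    | succ j ih => rw [pow_succ]; exact hmul _ _ ih (hX l)
  have hmono : ev (d (mono y e)) = q.map φ * Polynomial.derivative (ev (mono y e)) := by
    unfold mono
    exact Finset.prod_induction _
      (fun f : T => ev (d f) = q.map φ * Polynomial.derivative (ev f)) hmul hone
      (fun l _ => hpow l _)
  rw [hevm] at hmono
  rw [← hmono, ← ha₀, map_sum, ← Finset.sum_coe_sort (Ex κ n)]
  refine Finset.sum_congr rfl fun x _ => ?_
  rw [hevC, hevm]
  simp

/-- The evaluation of a product of powers. -/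
theorem prod_eval {L : Type*} [CommRing L] {κ : ℕ} {B₁ : Type*} [CommRing B₁] {B₂ : Type*}
    [CommRing B₂] (i : B₁ →+* L) (h : B₂ →+* L) (Z : Fin (κ + 1) → B₁) (η : Fin (κ + 1) → B₂)
    (P : L) (hZ : ∀ l, i (Z l) = P * h (η l)) (m : ℕ) (e : Fin (κ + 1) → ℕ)
    (he : ∑ l, e l = m) : i (mono Z e) = P ^ m * h (∏ l, η l ^ e l) := by
  unfold mono
  rw [map_prod, map_prod, ← he, ← Finset.prod_pow_eq_pow_sum, ← Finset.prod_mul_distrib]
  refine Finset.prod_congr rfl fun l _ => ?_
  rw [map_pow, map_pow, hZ, mul_pow]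

/-- The differential equation of the monomials of `B`. -/
theorem ode {A : Type} [CommRing A] [IsDomain A] {σ : Type} {κ m : ℕ}
    (η : Fin (κ + 1) → MvPolynomial σ (Polynomial A)) (q : Polynomial A) (hq : q ≠ 0)
    (M : Matrix (Fin (κ + 1)) (Fin (κ + 1)) (Polynomial A)) (B : Finset (Fin (κ + 1) → ℕ))
    (hBm : ∀ e ∈ B, ∑ l, e l = m)
    (hspan : ∀ e : Fin (κ + 1) → ℕ, ∑ l, e l = m → ∃ (q : Polynomial A)
      (c : (Fin (κ + 1) → ℕ) → Polynomial A), q ≠ 0 ∧
        MvPolynomial.C q * ∏ l, η l ^ e l = ∑ e' ∈ B, MvPolynomial.C (c e') * ∏ l, η l ^ e' l) :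
    ∃ (Q : Polynomial A) (M' : (Fin (κ + 1) → ℕ) → (Fin (κ + 1) → ℕ) → Polynomial A), Q ≠ 0 ∧
      ∀ (k : Type) [Field k] (φ : A →+* k) (Z : Fin (κ + 1) → Polynomial k) (L : Type)
        [CommRing L] (i : Polynomial k →+* L) (h : MvPolynomial σ (Polynomial A) →+* L) (P : L),
        Function.Injective i → (∀ r : Polynomial A, i (r.map φ) = h (MvPolynomial.C r)) →
        (∀ l, i (Z l) = P * h (η l)) →
        (∀ l, q.map φ * Polynomial.derivative (Z l) = ∑ l', (M l' l).map φ * Z l') → ∀ e ∈ B,
        Q.map φ * Polynomial.derivative (mono Z e) = ∑ e' ∈ B, (M' e' e).map φ * mono Z e' := by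
  classical
  choose! qs cs hqs hcs using hspan
  choose! N hN using der_gen q M m
  refine ⟨q * ∏ x ∈ Ex κ m, qs x,
    fun e' e => ∑ e'' ∈ Ex κ m, N e e'' * (∏ x ∈ (Ex κ m).erase e'', qs x) * cs e'' e',
    mul_ne_zero hq (Finset.prod_ne_zero_iff.2 fun x hx => hqs x (mem_Ex.1 hx)), ?_⟩
  intro k _ φ Z L _ i h P hi hhC hZ hODE e he
  have htr : ∀ e'' ∈ Ex κ m, (qs e'').map φ * mono Z e'' =
      ∑ e' ∈ B, (cs e'' e').map φ * mono Z e' := by
    intro e'' he''
    rw [mem_Ex] at he''
    apply hi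
    have h1 : ∀ e, ∑ l, e l = m → i (mono Z e) = P ^ m * h (∏ l, η l ^ e l) :=
      fun e he => prod_eval i h Z η P hZ m e he
    have h2 := congrArg (fun f => P ^ m * h f) (hcs e'' he'')
    beta_reduce at h2
    rw [map_mul, map_sum, Finset.mul_sum, mul_left_comm, ← h1 e'' he'', ← hhC] at h2
    rw [map_mul, h2, map_sum]
    refine Finset.sum_congr rfl fun e' he' => ?_
    rw [map_mul, map_mul, h1 e' (hBm e' he'), hhC]
    ring
  rw [Polynomial.map_mul, mul_comm (q.map φ), mul_assoc, hN e (hBm e he) k φ Z hODE,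
    Finset.mul_sum]
  have h3 : ∀ e'' ∈ Ex κ m, (∏ x ∈ Ex κ m, qs x).map φ * ((N e e'').map φ * mono Z e'') =
      ∑ e' ∈ B, ((N e e'' * (∏ x ∈ (Ex κ m).erase e'', qs x) * cs e'' e').map φ) * mono Z e' := by
    intro e'' he''
    have h4 : ∀ e', ((N e e'' * (∏ x ∈ (Ex κ m).erase e'', qs x) * cs e'' e').map φ) * mono Z e' =
        ((N e e'').map φ * (∏ x ∈ (Ex κ m).erase e'', qs x).map φ) *
          ((cs e'' e').map φ * mono Z e') := by
      intro e'
      rw [Polynomial.map_mul, Polynomial.map_mul]; ring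
    rw [Finset.sum_congr rfl fun e' _ => h4 e', ← Finset.mul_sum, ← htr e'' he'',
      ← Finset.mul_prod_erase (Ex κ m) qs he'', Polynomial.map_mul]
    ring
  rw [Finset.sum_congr rfl h3, Finset.sum_comm]
  refine Finset.sum_congr rfl fun e' _ => ?_
  rw [← Finset.sum_mul, Polynomial.map_sum]

/-- The auxiliary polynomial is not zero. -/
theorem nonvan {k : Type} [Field k] {A : Type} [CommRing A] (φ : A →+* k) {σ I : Type}
    [Fintype I] (w : I → MvPolynomial σ (Polynomial A)) (β D₁ D₂ Dc : ℕ)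
    (hw1 : ∀ e, (w e).totalDegree ≤ D₁) (hw2 : ∀ e s, ((w e).coeff s).natDegree ≤ Dc)
    (c : ℕ → I → Polynomial k) (hc1 : ∀ b e, (c b e).natDegree ≤ D₂)
    (hc2 : ∀ b, β ≤ b → c b = 0) (hc3 : c ≠ 0)
    (hind : ∀ c : I → Polynomial k,
      ∑ e, MvPolynomial.C (c e) * MvPolynomial.map (Polynomial.mapRingHom φ) (w e) = 0 → c = 0)
    {L : Type} [CommRing L] (i : Polynomial k →+* L) (t : L) (S : σ → L)
    (hNV : ∀ G : MvPolynomial σ (Polynomial (Polynomial k)), G ≠ 0 → G.totalDegree ≤ D₁ →
      (∀ m, (G.coeff m).natDegree < β ∧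
        ∀ b, ((G.coeff m).coeff b).natDegree < D₂ + Dc + 1) →
      MvPolynomial.eval₂ (Polynomial.eval₂RingHom i t) S G ≠ 0) :
    ∑ b ∈ range β, t ^ b * ∑ e, i (c b e) *
      MvPolynomial.eval₂Hom (i.comp (Polynomial.mapRingHom φ)) S (w e) ≠ 0 := by
  classical
  have hβ : 0 < β := by
    by_contra h
    apply hc3
    funext b
    exact hc2 b (by omega)
  let G : MvPolynomial σ (Polynomial (Polynomial k)) :=
    ∑ b ∈ range β, ∑ e, MvPolynomial.C (Polynomial.C (c b e) * Polynomial.X ^ b) *
      MvPolynomial.map (Polynomial.C.comp (Polynomial.mapRingHom φ)) (w e)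
  have hcoef : ∀ s, G.coeff s = ∑ b ∈ range β,
      Polynomial.C (∑ e, c b e * ((w e).coeff s).map φ) * Polynomial.X ^ b := by
    intro s
    simp only [G]
    rw [MvPolynomial.coeff_sum]
    refine Finset.sum_congr rfl fun b _ => ?_
    rw [MvPolynomial.coeff_sum, map_sum, Finset.sum_mul]
    refine Finset.sum_congr rfl fun e _ => ?_
    rw [MvPolynomial.coeff_C_mul, MvPolynomial.coeff_map, RingHom.comp_apply,
      Polynomial.coe_mapRingHom, Polynomial.C_mul]
    ring
  have hcoef2 : ∀ s b, (G.coeff s).coeff b =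
      if b < β then ∑ e, c b e * ((w e).coeff s).map φ else 0 := by
    intro s b
    rw [hcoef, Polynomial.finsetSum_coeff]
    simp only [Polynomial.coeff_C_mul_X_pow]
    split_ifs with hb
    · rw [Finset.sum_eq_single b]
      · rw [if_pos rfl]
      · intro b' _ hne
        rw [if_neg (Ne.symm hne)]
      · intro h; exact absurd (Finset.mem_range.2 hb) h
    · refine Finset.sum_eq_zero fun b' hb' => ?_
      rw [if_neg]
      rintro rfl
      exact hb (Finset.mem_range.1 hb')
  have hG0 : G ≠ 0 := by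
    intro h0
    apply hc3
    funext b
    by_cases hb : b < β
    · apply hind
      ext s : 1
      rw [MvPolynomial.coeff_sum, MvPolynomial.coeff_zero]
      have h1 := hcoef2 s b
      rw [if_pos hb, h0, MvPolynomial.coeff_zero, Polynomial.coeff_zero] at h1
      rw [h1]
      refine Finset.sum_congr rfl fun e _ => ?_
      rw [MvPolynomial.coeff_C_mul, MvPolynomial.coeff_map, Polynomial.coe_mapRingHom]
    · exact hc2 b (by omega)
  have hGd : G.totalDegree ≤ D₁ := by
    refine MvPolynomial.totalDegree_finsetSum_le fun b _ => ?_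
    refine MvPolynomial.totalDegree_finsetSum_le fun e _ => ?_
    refine (MvPolynomial.totalDegree_mul _ _).trans ?_
    rw [MvPolynomial.totalDegree_C, zero_add]
    refine le_trans ?_ (hw1 e)
    unfold MvPolynomial.totalDegree
    exact Finset.sup_mono (MvPolynomial.support_map_subset _ _)
  have hGc : ∀ m, (G.coeff m).natDegree < β ∧
      ∀ b, ((G.coeff m).coeff b).natDegree < D₂ + Dc + 1 := by
    intro s
    constructor
    · have h1 : (G.coeff s).natDegree ≤ β - 1 := by
        rw [Polynomial.natDegree_le_iff_coeff_eq_zero]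
        intro b hb
        rw [hcoef2, if_neg (by omega)]
      omega
    · intro b
      rw [hcoef2]
      split_ifs
      · have h1 : (∑ e, c b e * ((w e).coeff s).map φ).natDegree ≤ D₂ + Dc := by
          refine Polynomial.natDegree_sum_le_of_forall_le _ _ fun e _ => ?_
          refine Polynomial.natDegree_mul_le.trans (add_le_add (hc1 b e) ?_)
          exact Polynomial.natDegree_map_le.trans (hw2 e s)
        omega
      · simp
  have h := hNV G hG0 hGd hGc
  intro h0
  apply h
  rw [← MvPolynomial.coe_eval₂Hom, ← h0]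
  simp only [G]
  rw [map_sum]
  refine Finset.sum_congr rfl fun b _ => ?_
  rw [map_sum, Finset.mul_sum]
  refine Finset.sum_congr rfl fun e _ => ?_
  rw [map_mul, MvPolynomial.eval₂Hom_C, MvPolynomial.eval₂Hom_map_hom, map_mul, map_pow]
  have h1 : (Polynomial.eval₂RingHom i t).comp (Polynomial.C.comp (Polynomial.mapRingHom φ)) =
      i.comp (Polynomial.mapRingHom φ) := by
    rw [← RingHom.comp_assoc]
    congr 1
    refine RingHom.ext fun x => ?_
    rw [RingHom.comp_apply, Polynomial.coe_eval₂RingHom, Polynomial.eval₂_C]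
  rw [h1]
  simp only [Polynomial.coe_eval₂RingHom, Polynomial.eval₂_C, Polynomial.eval₂_X]
  ring

/-- **The soft Stepanov theorem with the nonvanishing as a hypothesis.** -/
theorem step : S_Step := by
  classical
  intro A _ _ _ σ _ _ κ η hη0 q M hq ε hε Cd
  set ε₁ : ℝ := min ε 1 with hε₁
  have hε₁0 : 0 < ε₁ := lt_min hε one_pos
  have hε₁1 : ε₁ ≤ 1 := min_le_right _ _
  have hε₁ε : ε₁ ≤ ε := min_le_left _ _
  obtain ⟨m, B, B₀, hm, hB₀, hBne, hBm, hB₀', hind, hspan, hcard⟩ :=
    Pool.Agent.Q299.ST.growth (Polynomial A) (MvPolynomial σ (Polynomial A)) MvPolynomial.C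
      (MvPolynomial.C_injective _ _) κ η hη0 (ε₁ / (8 * (1 + Cd))) (by positivity)
  let I := {x // x ∈ B}
  let w : I → MvPolynomial σ (Polynomial A) :=
    fun e => ∏ l, η l ^ (e : Fin (κ + 1) → ℕ) l
  have hw : ∀ c : I → Polynomial A, ∑ j, MvPolynomial.C (c j) * w j = 0 → c = 0 := by
    intro c' hc'
    have h := hind (fun e => if h : e ∈ B then c' ⟨e, h⟩ else 0) (by
      rw [← hc', ← Finset.sum_coe_sort B]
      refine Finset.sum_congr rfl fun x _ => ?_
      simp only [Finset.coe_mem, dif_pos, w])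
    funext x
    have := h x x.2
    simpa using this
  obtain ⟨Δ, hΔ, hΔ'⟩ := indep w hw
  obtain ⟨Q, M', hQ, hode⟩ := ode η q hq M B hBm hspan
  set δ := max Q.natDegree (Finset.univ.sup fun x : I × I => (M' x.1 x.2).natDegree) with hδ
  have hδM : ∀ i j : I, (M' i j).natDegree ≤ δ := fun i j =>
    (Finset.le_sup (f := fun x : I × I => (M' x.1 x.2).natDegree)
      (Finset.mem_univ (i, j))).trans (le_max_right _ _)
  have hδq : Q.natDegree ≤ δ := le_max_left _ _
  clear_value δ
  let I₀ : Finset I := Finset.univ.filter fun e => (e : Fin (κ + 1) → ℕ) ∈ B₀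
  have hI₀ : I₀.card = B₀.card := by
    have h1 : I₀.map (Function.Embedding.subtype _) = B₀ := by
      ext e
      simp only [I₀, Finset.mem_map, Finset.mem_filter, Finset.mem_univ, true_and,
        Function.Embedding.subtype_apply]
      constructor
      · rintro ⟨x, hx, rfl⟩; exact hx
      · intro he; exact ⟨⟨e, hB₀ he⟩, he, rfl⟩
    rw [← h1, Finset.card_map]
  have hIc : Fintype.card I = B.card := Fintype.card_coe B
  set N : ℕ := ⌈2 * m * (1 + Cd) / ε₁⌉₊ with hN
  have hm1 : (1 : ℝ) ≤ m := by exact_mod_cast hm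
  have hN1 : 2 * m * (1 + Cd) / ε₁ ≤ (N : ℝ) := Nat.le_ceil _
  have hN2 : (N : ℝ) < 2 * m * (1 + Cd) / ε₁ + 1 := Nat.ceil_lt_add_one (by positivity)
  have hNpos : 0 < N := by
    rw [hN, Nat.ceil_pos]; positivity
  clear_value N
  have hBc : (0 : ℝ) < B.card := by exact_mod_cast Finset.card_pos.2 hBne
  have hcond : 2 * N * I₀.card < m * Fintype.card I := by
    rw [hI₀, hIc]
    have h1 : (2 * N * B₀.card : ℝ) < m * B.card := by
      calc (2 * N * B₀.card : ℝ) ≤ 2 * N * (ε₁ / (8 * (1 + Cd)) * B.card) := by gcongr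
        _ ≤ 2 * (2 * m * (1 + Cd) / ε₁ + 1) * (ε₁ / (8 * (1 + Cd)) * B.card) := by gcongr
        _ = (m / 2 + ε₁ / (4 * (1 + Cd))) * B.card := by field_simp; ring
        _ < m * B.card := by
          refine mul_lt_mul_of_pos_right ?_ hBc
          have h2 : ε₁ / (4 * (1 + Cd)) ≤ 1 / 4 := by
            rw [div_le_div_iff₀ (by positivity) (by positivity)]
            have : (0 : ℝ) ≤ Cd := by positivity
            nlinarith
          linarith
    exact_mod_cast h1
  set Dt : ℕ := Finset.univ.sup fun e : I => (w e).totalDegree with hDt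
  have hDt' : ∀ e, (w e).totalDegree ≤ Dt := fun e =>
    Finset.le_sup (f := fun e : I => (w e).totalDegree) (Finset.mem_univ e)
  clear_value Dt
  set Dc : ℕ := Finset.univ.sup fun e : I =>
    (w e).support.sup fun s => ((w e).coeff s).natDegree with hDc
  have hDc' : ∀ e s, ((w e).coeff s).natDegree ≤ Dc := by
    intro e s
    by_cases hs : s ∈ (w e).support
    · exact (Finset.le_sup (f := fun s => ((w e).coeff s).natDegree) hs).trans
        (Finset.le_sup (f := fun e : I => (w e).support.sup fun s => ((w e).coeff s).natDegree)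
          (Finset.mem_univ e))
    · rw [MvPolynomial.notMem_support_iff.1 hs]
      simp
  clear_value Dc
  refine ⟨Dt, m + N * δ + Dc + 1, m, max N ⌈2 * ((m + 2 * (N * δ) : ℕ) : ℝ) / ε⌉₊,
    Δ.leadingCoeff * Q.leadingCoeff,
    mul_ne_zero (Polynomial.leadingCoeff_ne_zero.2 hΔ) (Polynomial.leadingCoeff_ne_zero.2 hQ), ?_⟩
  intro p _ k _ _ φ hp0 hφ Z P S hP hZ hODE hZd hNV T hT
  rw [map_mul] at hφ
  have hφa : φ Δ.leadingCoeff ≠ 0 := left_ne_zero_of_mul hφ
  have hφl : φ Q.leadingCoeff ≠ 0 := right_ne_zero_of_mul hφ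
  have hNp : N ≤ p := (le_max_left _ _).trans hp0
  have hmap0 : ∀ f : Polynomial A, φ f.leadingCoeff ≠ 0 → f.map φ ≠ 0 := by
    intro f hf h0
    have h1 := congrArg (fun g : Polynomial k => g.coeff f.natDegree) h0
    simp only [Polynomial.coeff_map, Polynomial.coeff_zero] at h1
    exact hf h1
  set q' : Polynomial k := Q.map φ with hq'
  have hq'0 : q' ≠ 0 := hmap0 Q hφl
  have hindk := hΔ' (Polynomial k) (Polynomial.mapRingHom φ) (by
    rw [Polynomial.coe_mapRingHom]; exact hmap0 Δ hφa)
  let M'' : I → I → Polynomial k := fun i j => (M' i j).map φ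
  have hq'd : q'.natDegree ≤ δ := Polynomial.natDegree_map_le.trans hδq
  have hM'd : ∀ i j, (M'' i j).natDegree ≤ δ := fun i j =>
    Polynomial.natDegree_map_le.trans (hδM i j)
  let Zm : I → Polynomial k := fun e => mono Z e
  have hinj : Function.Injective (ι k) := IsFractionRing.injective (Polynomial k) (KX k)
  have hhC : ∀ r : Polynomial A, ι k (r.map φ) =
      MvPolynomial.eval₂Hom ((ι k).comp (Polynomial.mapRingHom φ)) S (MvPolynomial.C r) := by
    intro r
    rw [MvPolynomial.eval₂Hom_C, RingHom.comp_apply, Polynomial.coe_mapRingHom]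
  have hZ' : ∀ l, ι k (Z l) =
      P * MvPolynomial.eval₂Hom ((ι k).comp (Polynomial.mapRingHom φ)) S (η l) := hZ
  have hZeq : ∀ e, q' * Polynomial.derivative (Zm e) = ∑ e', M'' e' e * Zm e' := by
    intro e
    have h := hode k φ Z (KX k) (ι k)
      (MvPolynomial.eval₂Hom ((ι k).comp (Polynomial.mapRingHom φ)) S) P hinj hhC hZ' hODE e e.2
    refine h.trans ?_
    rw [← Finset.sum_coe_sort B]
  obtain ⟨c, hc1, hc2, hc3, hc4⟩ := Pool.Agent.Q121.ST.aux k I I₀ q' M'' δ N m hq'd hM'd hcond
  have hc1' : ∀ b e, (c b e).natDegree ≤ m + N * δ := by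
    intro b e
    have h2 := hc1 b e
    by_cases h3 : c b e = 0
    · rw [h3]; simp
    · rw [Polynomial.degree_eq_natDegree h3] at h2
      have h4 : (c b e).natDegree < m + N * δ + 1 := by exact_mod_cast h2
      omega
  have hZmd : ∀ e, (Zm e).natDegree ≤ m * (Cd * p) := by
    intro e
    simp only [Zm]
    unfold mono
    refine (Polynomial.natDegree_prod_le _ _).trans ?_
    have hsum : ∑ l, (e : Fin (κ + 1) → ℕ) l = m := hBm e e.2
    rw [← hsum, Finset.sum_mul]
    refine Finset.sum_le_sum fun l _ => ?_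
    refine Polynomial.natDegree_pow_le.trans ?_
    exact Nat.mul_le_mul_left _ (hZd l)
  set s : Polynomial k := ∑ b ∈ range m, Polynomial.X ^ (p * b) * ∑ e, c b e * Zm e with hs
  have hdeg : s.natDegree ≤ m * p + (m + N * δ) + m * (Cd * p) := by
    rw [hs]
    refine Polynomial.natDegree_sum_le_of_forall_le _ _ fun b hb => ?_
    rw [Finset.mem_range] at hb
    refine Polynomial.natDegree_mul_le.trans ?_
    rw [Polynomial.natDegree_X_pow]
    have h1 : (∑ e, c b e * Zm e).natDegree ≤ (m + N * δ) + m * (Cd * p) := by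
      refine Polynomial.natDegree_sum_le_of_forall_le _ _ fun e _ => ?_
      exact Polynomial.natDegree_mul_le.trans (add_le_add (hc1' b e) (hZmd e))
    have h2 : p * b ≤ m * p := by
      rw [mul_comm]
      exact Nat.mul_le_mul_right p hb.le
    omega
  have hs0 : s ≠ 0 := by
    intro h0
    have hnv := nonvan φ w m Dt (m + N * δ) Dc hDt' hDc' c hc1' hc2 hc3 hindk (ι k)
      (ι k (Polynomial.X ^ p)) S hNV
    apply hnv
    have h1 : P ^ m * ∑ b ∈ range m, (ι k (Polynomial.X ^ p)) ^ b * ∑ e, ι k (c b e) *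
        MvPolynomial.eval₂Hom ((ι k).comp (Polynomial.mapRingHom φ)) S (w e) = 0 := by
      have h2 : ι k s = 0 := by rw [h0, map_zero]
      rw [← h2, hs, map_sum, Finset.mul_sum]
      refine Finset.sum_congr rfl fun b _ => ?_
      rw [map_mul, map_sum, mul_left_comm, pow_mul, map_pow (ι k) (Polynomial.X ^ p) b]
      congr 1
      rw [Finset.mul_sum]
      refine Finset.sum_congr rfl fun e _ => ?_
      rw [map_mul, mul_left_comm]
      congr 1
      exact (prod_eval (ι k) (MvPolynomial.eval₂Hom ((ι k).comp (Polynomial.mapRingHom φ)) S)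
        Z η P hZ' m e (hBm e e.2)).symm
    exact (mul_eq_zero.1 h1).resolve_left (pow_ne_zero _ hP)
  -- vanishing
  set T' := T.filter (fun t => q'.eval t ≠ 0) with hT'
  have hvan := Pool.Agent.Q225.ST.van k p q' s N T' hNp hs0 (fun t ht => by
    obtain ⟨ht1, ht2⟩ := Finset.mem_filter.1 ht
    refine ⟨ht2, fun n hn => ?_⟩
    obtain ⟨ht3, ht4⟩ := hT t ht1
    rw [hs, Pool.Agent.Q95.ST.iter_formula p q' M'' Zm hZeq m c n, Polynomial.eval_finsetSum]
    have h1 : ∀ b ∈ range m, (Polynomial.X ^ (p * b) *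
        ∑ e, (opL q' M'')^[n] (c b) e * Zm e).eval t =
        ∑ e ∈ I₀, (Zm e).eval t * ((Polynomial.X ^ b * (opL q' M'')^[n] (c b) e).eval t) := by
      intro b _
      rw [Polynomial.eval_mul, Polynomial.eval_pow, Polynomial.eval_X, pow_mul, ht3,
        Polynomial.eval_finsetSum, Finset.mul_sum,
        ← Finset.sum_subset (Finset.subset_univ I₀)]
      · refine Finset.sum_congr rfl fun e _ => ?_
        rw [Polynomial.eval_mul, Polynomial.eval_mul, Polynomial.eval_pow, Polynomial.eval_X]
        ring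
      · intro e _ he
        have h5 : (Zm e).eval t = 0 := by
          have he0 : (e : Fin (κ + 1) → ℕ) 0 ≠ 0 := by
            refine hB₀' e e.2 fun h => he ?_
            simp [I₀, h]
          simp only [Zm]
          unfold mono
          rw [Polynomial.eval_prod]
          refine Finset.prod_eq_zero (Finset.mem_univ 0) ?_
          rw [Polynomial.eval_pow, ht4, zero_pow he0]
        rw [Polynomial.eval_mul, h5, mul_zero, mul_zero]
    rw [Finset.sum_congr rfl h1, Finset.sum_comm]
    refine Finset.sum_eq_zero fun e he => ?_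
    rw [← Finset.mul_sum, ← Polynomial.eval_finsetSum, hc4 n hn e he, Polynomial.eval_zero,
      mul_zero])
  -- the zeros of q
  have hroots : (T.filter (fun t => ¬ q'.eval t ≠ 0)).card ≤ δ := by
    have h1 : T.filter (fun t => ¬ q'.eval t ≠ 0) ⊆ q'.roots.toFinset := by
      intro t ht
      obtain ⟨_, ht2⟩ := Finset.mem_filter.1 ht
      rw [Multiset.mem_toFinset, Polynomial.mem_roots hq'0]
      exact not_not.1 ht2
    calc _ ≤ q'.roots.toFinset.card := Finset.card_le_card h1
      _ ≤ q'.roots.card := Multiset.toFinset_card_le _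
      _ ≤ q'.natDegree := Polynomial.card_roots' q'
      _ ≤ δ := hq'd
  have hcard : T.card = T'.card + (T.filter (fun t => ¬ q'.eval t ≠ 0)).card :=
    (Finset.card_filter_add_card_filter_not _).symm
  have h5 : N * T.card ≤ N * T'.card + N * δ := by
    rw [hcard, mul_add]
    exact Nat.add_le_add_left (Nat.mul_le_mul_left N hroots) _
  have h1 : N * T.card ≤ m * p + (m + 2 * (N * δ)) + m * (Cd * p) := by omega
  -- the final estimate
  set A₀ : ℕ := m + 2 * (N * δ) with hA₀
  have h2 : (N : ℝ) * T.card ≤ m * p + A₀ + m * (Cd * p) := by exact_mod_cast h1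
  have h3 : 2 * (A₀ : ℝ) / ε ≤ (p : ℝ) :=
    (Nat.le_ceil _).trans (by exact_mod_cast (le_max_right _ _).trans hp0)
  have h4 : (A₀ : ℝ) ≤ ε / 2 * p := by
    rw [div_le_iff₀ hε] at h3
    linarith
  have hN1' : 2 * m * (1 + Cd) ≤ ε * (N : ℝ) := by
    rw [div_le_iff₀ hε₁0] at hN1
    have : (N : ℝ) * ε₁ ≤ ε * N := by nlinarith
    linarith
  have h5 : (N : ℝ) * T.card ≤ N * (ε * p) := by
    have h6 : (m * p + m * (Cd * p) : ℝ) ≤ ε * N / 2 * p := by
      have hp0 : (0 : ℝ) ≤ p := by positivity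
      calc (m * p + m * (Cd * p) : ℝ) = (2 * m * (1 + Cd)) / 2 * p := by ring
        _ ≤ ε * N / 2 * p := by gcongr
    have hN1'' : (1 : ℝ) ≤ N := by exact_mod_cast hNpos
    have h7 : (A₀ : ℝ) ≤ N * (ε / 2 * p) := by
      have : (0 : ℝ) ≤ ε / 2 * p := by positivity
      nlinarith
    nlinarith
  exact le_of_mul_le_mul_left h5 (by exact_mod_cast hNpos)

end Pool.Agent.Helper4.BM
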